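import Mathlib

namespace Pool.Agent.Results.MP_a656b1_co.Even

open Finset

/-- The product of chains `M(e)`. -/
def M {n : ℕ} (e : Fin n → ℕ) : Finset (Fin n → ℕ) := Fintype.piFinset fun i => range (e i + 1)

/-- `F` is an `I,U`-family in `M(e)`. -/
def IU {n : ℕ} (e : Fin n → ℕ) (F : Finset (Fin n → ℕ)) : Prop :=
  F ⊆ M e ∧ ∀ a ∈ F, ∀ b ∈ F, (∃ i, e i < a i + b i) ∧ ∃ j, a j + b j < e j

theorem iu {n : ℕ} (G : Finset (Finset (Fin n))) (h1 : ∀ S ∈ G, ∀ T ∈ G, ∃ i, i ∈ S ∧ i ∈ T)
    (h2 : ∀ S ∈ G, ∀ T ∈ G, ∃ i, i ∉ S ∧ i ∉ T) : 4 * #G ≤ 2 ^ n := by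
  classical
  let U : Finset (Finset (Fin n)) := univ.filter fun X => ∃ S ∈ G, S ⊆ X
  let D : Finset (Finset (Fin n)) := univ.filter fun X => ∃ S ∈ G, X ⊆ S
  have hU : IsUpperSet (U : Set (Finset (Fin n))) := by
    intro X Y hXY hX
    simp only [U, coe_filter, mem_univ, true_and, Set.mem_ofPred_eq] at hX ⊢
    obtain ⟨S, hS, h⟩ := hX
    exact ⟨S, hS, h.trans hXY⟩
  have hD : IsLowerSet (D : Set (Finset (Fin n))) := by
    intro X Y hXY hX
    simp only [D, coe_filter, mem_univ, true_and, Set.mem_ofPred_eq] at hX ⊢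
    obtain ⟨S, hS, h⟩ := hX
    exact ⟨S, hS, Subset.trans hXY h⟩
  have cU : 2 * #U ≤ 2 ^ n := by
    have : (U : Set (Finset (Fin n))).Intersecting := by
      intro X hX Y hY hd
      simp only [U, coe_filter, mem_univ, true_and, Set.mem_ofPred_eq] at hX hY
      obtain ⟨S, hS, a⟩ := hX
      obtain ⟨T, hT, b⟩ := hY
      obtain ⟨i, c, d⟩ := h1 S hS T hT
      exact disjoint_left.1 hd (a c) (b d)
    simpa using this.card_le
  have cD : 2 * #D ≤ 2 ^ n := by
    have : ((D.image compl : Finset _) : Set (Finset (Fin n))).Intersecting := by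
      intro X hX Y hY hd
      simp only [D, coe_image, coe_filter, mem_univ, true_and, Set.mem_image,
        Set.mem_ofPred_eq] at hX hY
      obtain ⟨X, ⟨S, hS, a⟩, rfl⟩ := hX
      obtain ⟨Y, ⟨T, hT, b⟩, rfl⟩ := hY
      obtain ⟨i, c, d⟩ := h2 S hS T hT
      exact disjoint_left.1 hd (mem_compl.2 fun t => c (a t)) (mem_compl.2 fun t => d (b t))
    have := this.card_le
    rw [card_image_of_injective _ compl_injective] at this
    simpa using this
  have hk := hU.card_inter_le_finset hD
  have hs : #G ≤ #(U ∩ D) := card_le_card fun S hS => by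
    simp only [U, D, mem_inter, mem_filter, mem_univ, true_and]
    exact ⟨⟨S, hS, Subset.rfl⟩, S, hS, Subset.rfl⟩
  rw [Fintype.card_fin] at hk
  have p : 0 < 2 ^ n := by positivity
  refine Nat.le_of_mul_le_mul_left ?_ p
  nlinarith [Nat.mul_le_mul cU cD, Nat.mul_le_mul_left (2 ^ n) hs]

variable {n : ℕ} (h : Fin n → ℕ)

def fl (S : Finset (Fin n)) (a : Fin n → ℕ) : Fin n → ℕ :=
  fun i => if i ∈ S then 2 * h i - a i else a i

theorem mem_M {a : Fin n → ℕ} : a ∈ M (fun i => 2 * h i) ↔ ∀ i, a i ≤ 2 * h i := by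
  simp [M]

theorem dc (F : Finset (Fin n → ℕ)) (hF : F ⊆ M fun i => 2 * h i) :
    ∑ a ∈ M (fun i => 2 * h i), #{S | fl h S a ∈ F} = 2 ^ n * #F := by
  simp only [card_filter]
  rw [sum_comm]
  have inv : ∀ S a, (∀ i, a i ≤ 2 * h i) → fl h S (fl h S a) = a := by
    intro S a ha
    funext i
    have := ha i
    simp only [fl]
    split_ifs <;> omega
  have : ∀ S, (∑ a ∈ M (fun i => 2 * h i), if fl h S a ∈ F then 1 else 0) = #F := by
    intro S
    rw [← card_filter]
    refine card_nbij' (fl h S) (fl h S) (fun a ha => (mem_filter.1 ha).2) (fun a ha => ?_)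
      (fun a ha => inv S a ((mem_M h).1 (mem_filter.1 ha).1))
      (fun a ha => inv S a ((mem_M h).1 (hF ha)))
    have := (mem_M h).1 (hF ha)
    refine mem_filter.2 ⟨(mem_M h).2 fun i => ?_, by rwa [inv S a this]⟩
    have := this i
    simp only [fl]
    split_ifs <;> omega
  simp [this]

def B : Finset (Fin n → ℕ) :=
  insert h ((univ.sigma fun i => (range (2 * h i + 1)).erase (h i)).image
    fun p : Σ _ : Fin n, ℕ => Function.update h p.1 p.2)

theorem card_B : #(B h) = 1 + ∑ i, 2 * h i := by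
  rw [B, card_insert_of_notMem, card_image_of_injOn, card_sigma, add_comm]
  · congr 1
    refine sum_congr rfl fun i _ => ?_
    rw [card_erase_of_mem (by simp; omega)]
    simp
  · rintro ⟨i, x⟩ hx ⟨j, y⟩ hy e
    simp only [coe_sigma, Set.mem_sigma_iff, coe_erase, Set.mem_sdiff, Set.mem_singleton_iff] at hx hy
    have e1 := congrFun e i
    simp only [Function.update_self] at e1
    by_cases t : i = j
    · subst t
      simp only [Function.update_self] at e1
      rw [e1]
    · rw [Function.update_of_ne t] at e1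
      exact absurd e1 hx.2.2
  · simp only [mem_image, mem_sigma, mem_univ, mem_erase, true_and, not_exists, not_and]
    rintro ⟨i, x⟩ hx e
    have e1 := congrFun e i
    simp only [Function.update_self] at e1
    exact hx.1 e1

theorem mem_B {a : Fin n → ℕ} :
    a ∈ B h ↔ (∀ i, a i ≤ 2 * h i) ∧ ∀ i j, a i ≠ h i → a j ≠ h j → i = j := by
  simp only [B, mem_insert, mem_image, mem_sigma, mem_univ, mem_erase, true_and, mem_range]
  constructor
  · rintro (rfl | ⟨⟨k, x⟩, hx, rfl⟩)
    · exact ⟨fun i => by omega, fun i j t => absurd rfl t⟩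
    · have : ∀ i, Function.update h k x i ≠ h i → i = k := fun i t => by
        by_contra c
        exact t (Function.update_of_ne c _ _)
      refine ⟨fun i => ?_, fun i j a b => (this i a).trans (this j b).symm⟩
      by_cases c : i = k
      · subst c
        simp only [Function.update_self] at hx ⊢
        omega
      · rw [Function.update_of_ne c]
        omega
  · rintro ⟨h1, h2⟩
    by_cases c : a = h
    · exact Or.inl c
    · obtain ⟨k, hk⟩ := Function.ne_iff.1 c
      refine Or.inr ⟨⟨k, a k⟩, ⟨hk, Nat.lt_succ_of_le (h1 k)⟩, ?_⟩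
      funext i
      by_cases t : i = k
      · subst t
        simp
      · rw [Function.update_of_ne t]
        by_contra u
        exact t (h2 i k (Ne.symm u) hk)

theorem B_sub : B h ⊆ M fun i => 2 * h i := fun _ ha => (mem_M h).2 ((mem_B h).1 ha).1

theorem upper (F : Finset (Fin n → ℕ)) (hF : IU (fun i => 2 * h i) F) :
    4 * #F ≤ #(M (fun i => 2 * h i) \ B h) := by
  have p : 0 < 2 ^ n := by positivity
  refine Nat.le_of_mul_le_mul_left ?_ p
  rw [mul_left_comm, ← dc h F hF.1, ← sum_sdiff (B_sub h), mul_add, mul_sum, mul_sum,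
    sum_eq_zero (s := B h), add_zero, mul_comm, ← smul_eq_mul, ← sum_const]
  · refine sum_le_sum fun a ha => ?_
    have hb := (mem_M h).1 (mem_sdiff.1 ha).1
    rw [← card_image_of_injective _ (symmDiff_left_injective ({i | h i < a i} : Finset (Fin n)))]
    apply iu
    all_goals
      simp only [mem_image, mem_filter, mem_univ, true_and]
      rintro _ ⟨S, hS, rfl⟩ _ ⟨T, hT, rfl⟩
    · obtain ⟨i, hi⟩ := (hF.2 _ hS _ hT).1
      refine ⟨i, ?_⟩
      have := hb i
      simp only [fl, mem_symmDiff, mem_filter, mem_univ, true_and] at hi ⊢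
      by_cases c : i ∈ S <;> by_cases d : i ∈ T <;> simp only [c, d, if_true, if_false] at hi <;>
        simp [c, d] <;> omega
    · obtain ⟨i, hi⟩ := (hF.2 _ hS _ hT).2
      refine ⟨i, ?_⟩
      have := hb i
      simp only [fl, mem_symmDiff, mem_filter, mem_univ, true_and] at hi ⊢
      by_cases c : i ∈ S <;> by_cases d : i ∈ T <;> simp only [c, d, if_true, if_false] at hi <;>
        simp [c, d] <;> omega
  · intro a ha
    rw [mul_eq_zero, card_eq_zero, filter_eq_empty_iff]
    refine Or.inr fun S _ hS => ?_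
    obtain ⟨⟨i, hi⟩, j, hj⟩ := hF.2 _ hS _ hS
    obtain ⟨h1, h2⟩ := (mem_B h).1 ha
    have a1 := h1 i
    have a2 := h1 j
    simp only [fl] at hi hj
    have : i = j := h2 i j (by split_ifs at hi <;> omega) (by split_ifs at hj <;> omega)
    subst this
    omega

def F0 : Finset (Fin n → ℕ) :=
  (M fun i => 2 * h i).filter fun a => (∃ i, h i < a i ∧ ∀ k, k < i → a k = h k) ∧
    ∃ j, a j < h j ∧ ∀ k, j < k → a k = h k

theorem F0_iu : IU (fun i => 2 * h i) (F0 h) := by
  refine ⟨filter_subset _ _, fun a ha b hb => ?_⟩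
  obtain ⟨⟨i, a1, a2⟩, j, a3, a4⟩ := (mem_filter.1 ha).2
  obtain ⟨⟨k, b1, b2⟩, l, b3, b4⟩ := (mem_filter.1 hb).2
  beta_reduce
  constructor
  · rcases lt_trichotomy i k with t | rfl | t
    · exact ⟨i, by have := b2 i t; omega⟩
    · exact ⟨i, by omega⟩
    · exact ⟨k, by have := a2 k t; omega⟩
  · rcases lt_trichotomy j l with t | rfl | t
    · exact ⟨l, by have := a4 l t; omega⟩
    · exact ⟨j, by omega⟩
    · exact ⟨j, by have := b4 j t; omega⟩

theorem lower : #(M (fun i => 2 * h i) \ B h) ≤ 4 * #(F0 h) := by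
  have p : 0 < 2 ^ n := by positivity
  refine Nat.le_of_mul_le_mul_left ?_ p
  rw [mul_left_comm, ← dc h _ (F0_iu h).1, ← sum_sdiff (B_sub h), mul_add, mul_sum, mul_comm,
    ← smul_eq_mul, ← sum_const]
  refine le_trans (sum_le_sum fun a ha => ?_) (Nat.le_add_right _ _)
  have hb := (mem_M h).1 (mem_sdiff.1 ha).1
  have hn := (mem_sdiff.1 ha).2
  rw [mem_B] at hn
  push Not at hn
  obtain ⟨x, y, hx, hy, hxy⟩ := hn hb
  let Z : Finset (Fin n) := {i | a i ≠ h i}
  have ne : Z.Nonempty := ⟨x, by simp [Z, hx]⟩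
  set i := Z.min' ne with hi
  set j := Z.max' ne with hj
  have zi : a i ≠ h i := (mem_filter.1 (Z.min'_mem ne)).2
  have zj : a j ≠ h j := (mem_filter.1 (Z.max'_mem ne)).2
  have lo : ∀ k, k < i → a k = h k := fun k t => by
    by_contra c
    exact absurd (Z.min'_le k (by simp [Z, c])) (not_le.2 t)
  have up : ∀ k, j < k → a k = h k := fun k t => by
    by_contra c
    exact absurd (Z.le_max' k (by simp [Z, c])) (not_le.2 t)
  have ij : i ≠ j := (Z.min'_lt_max' (by simp [Z, hx] : x ∈ Z) (by simp [Z, hy]) hxy).ne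
  have key : (univ : Finset (Finset (Fin n))) ⊆ (({i, j} : Finset (Fin n)).powerset ×ˢ
      ({S | fl h S a ∈ F0 h} : Finset (Finset (Fin n)))).image fun q => symmDiff q.2 q.1 := by
    intro S _
    let U : Finset (Fin n) := ({i, j} : Finset (Fin n)).filter fun k =>
      if k = i then (k ∈ S ↔ h k < a k) else (k ∈ S ↔ a k < h k)
    refine mem_image.2 ⟨(U, symmDiff S U), mem_product.2 ⟨mem_powerset.2 (filter_subset _ _), ?_⟩,
      symmDiff_symmDiff_cancel_right _ _⟩
    simp only [mem_filter, mem_univ, true_and, F0]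
    refine ⟨(mem_M h).2 fun k => ?_, ⟨i, ?_, fun k t => ?_⟩, j, ?_, fun k t => ?_⟩
    · have := hb k
      simp only [fl]
      split_ifs <;> omega
    · have := hb i
      by_cases c : i ∈ S <;> by_cases d : h i < a i <;> simp [fl, mem_symmDiff, U, c, d] <;> omega
    · have := lo k t
      simp only [fl]
      split_ifs <;> omega
    · have := hb j
      by_cases c : j ∈ S <;> by_cases d : a j < h j <;>
        simp [fl, mem_symmDiff, U, c, d, ij.symm] <;> omega
    · have := up k t
      simp only [fl]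
      split_ifs <;> omega
  have := (card_le_card key).trans card_image_le
  rw [card_product, card_powerset, card_pair ij] at this
  simpa using this

theorem result (e : Fin n → ℕ) (he : ∀ i, Even (e i)) :
    ∃ g, IsGreatest {k | ∃ F, IU e F ∧ #F = k} g ∧ 4 * g + 1 + ∑ i, e i = ∏ i, (e i + 1) := by
  obtain ⟨h, rfl⟩ : ∃ h : Fin n → ℕ, e = fun i => 2 * h i := by
    choose h hh using he
    exact ⟨h, funext fun i => by rw [hh i, two_mul]⟩
  have c : #(M (fun i => 2 * h i) \ B h) + (1 + ∑ i, 2 * h i) = ∏ i, (2 * h i + 1) := by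
    rw [← card_B, card_sdiff_add_card_eq_card (B_sub h), M, Fintype.card_piFinset]
    simp
  have l := lower h
  have u := upper h _ (F0_iu h)
  refine ⟨#(F0 h), ⟨⟨F0 h, F0_iu h, rfl⟩, ?_⟩, by beta_reduce; omega⟩
  rintro k ⟨F, hF, rfl⟩
  have := upper h F hF
  omega

end Pool.Agent.Results.MP_a656b1_co.Even
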